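import Pool.Agent.Lib_helper22.Defs
import Pool.Agent.Lib_helper22.Main

/-!
# A complete bounded minimal disc in `ℝ³` with non-empty essential spectrum which does not
factor through any covering

All notions used in the statement are defined in `Pool/Agent/Lib_helper22/Defs.lean`; the proof
is in `Pool/Agent/Lib_helper22/Main.lean` and the files it imports.
-/

namespace Pool.Agent.Results.MP_c18e9c_gt.BoundedDiscEssSpec

open Pool.Agent.MinSurf

/-- There is a complete bounded minimal surface `φ : 𝔻 → ℝ³`, `𝔻` the open unit disc, for which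
the closure of `-Δ` on `C_c^∞(𝔻)` has non-empty essential spectrum and which does not factor
through any covering map with more than one sheet. -/
theorem result.{u} : ∃ φ : ℂ → R3,
    IsImmersionOn φ (Metric.ball 0 1) ∧
    IsMinimalOn φ (Metric.ball 0 1) ∧
    IsCompleteOn φ (Metric.ball 0 1) ∧
    Bornology.IsBounded (φ '' Metric.ball 0 1) ∧
    (∃ T : L2 φ (Metric.ball 0 1) →ₗ.[ℂ] L2 φ (Metric.ball 0 1),
      IsClosureOfNegLaplacian φ (Metric.ball 0 1) T ∧ (essSpectrum T).Nonempty) ∧
    ¬ FactorsThroughCovering.{u} φ (Metric.ball 0 1) :=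
  main_theorem

end Pool.Agent.Results.MP_c18e9c_gt.BoundedDiscEssSpec
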